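import Pool.Agent.N458.GN.TIE

/-!
# Project GN (helper782), task TI: the linear sums
-/

set_option autoImplicit false

namespace Pool.Agent.N458.GN

open Finset
open Pool.Agent.N782.GN

theorem nat_zi (g : ℕ) : ((g : ℕ) : ZI) = (⟨g, 0⟩ : ZI) := by
  apply Zsqrtd.ext <;> simp

theorem smul_mk (g : ℕ) (l m : ℤ) : ((g : ℕ) : ZI) * ⟨l, m⟩ = ⟨g * l, g * m⟩ := by
  rw [nat_zi]
  apply Zsqrtd.ext <;> simp

theorem zi_ne (g : ℕ) (hg : 1 ≤ g) : ((g : ℕ) : ZI) ≠ 0 := by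
  intro h
  have h1 := congrArg Zsqrtd.re h
  rw [nat_zi] at h1
  simp at h1
  omega

theorem scale1 (a0 : ZI) (g : ℕ) (hg : 1 ≤ g) (l m : ℤ) :
    (((g : ℕ) : ZI) * a0) ∣ (⟨g * l, g * m⟩ : ZI) ↔ a0 ∣ (⟨l, m⟩ : ZI) := by
  rw [← smul_mk]
  exact mul_dvd_mul_iff_left (zi_ne g hg)

theorem scale2 (a0 : ZI) (g : ℕ) (l m : ℤ) (h : (((g : ℕ) : ZI) * a0) ∣ (⟨l, m⟩ : ZI)) :
    (g : ℤ) ∣ l ∧ (g : ℤ) ∣ m := by
  have h1 : ((g : ℕ) : ZI) ∣ (⟨l, m⟩ : ZI) := (dvd_mul_right _ _).trans h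
  have h2 : (((g : ℤ) : ℤ) : ZI) ∣ (⟨l, m⟩ : ZI) := by
    have h3 : (((g : ℤ) : ℤ) : ZI) = ((g : ℕ) : ZI) := by push_cast; rfl
    rw [h3]
    exact h1
  rw [Zsqrtd.intCast_dvd] at h2
  exact h2

theorem ct_scale (a0 : ZI) (g : ℕ) (h : ct a0 = 1) : ct (((g : ℕ) : ZI) * a0) = g := by
  obtain ⟨x, y⟩ := a0
  rw [smul_mk]
  unfold ct at h ⊢
  simp only at h ⊢
  rw [Int.gcd_mul_left, h]
  simp

theorem nz_scale (a0 : ZI) (g : ℕ) : nz (((g : ℕ) : ZI) * a0) = (g : ℝ) ^ 2 * nz a0 := by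
  obtain ⟨x, y⟩ := a0
  rw [smul_mk, nz_eq, nz_eq]
  push_cast
  ring

theorem nm_scale (a0 : ZI) (g : ℕ) (hg : 1 ≤ g) (M : ℝ) (l : ℤ) :
    nm M (((g : ℕ) : ZI) * a0) (g * l) = nm (M / g) a0 l := by
  classical
  have hg0 : (0 : ℝ) < g := by exact_mod_cast hg
  unfold nm
  congr 1
  symm
  apply card_nbij' (i := fun m => (g : ℤ) * m) (j := fun m => m / (g : ℤ))
  · intro m hm
    simp only [coe_filter, Set.mem_ofPred_eq, mem_Icc, Int.ceil_le, Int.le_floor] at hm ⊢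
    obtain ⟨⟨h1, h2⟩, h3⟩ := hm
    rw [← neg_div, div_le_iff₀ hg0] at h1
    rw [le_div_iff₀ hg0] at h2
    refine ⟨⟨?_, ?_⟩, ?_⟩
    · push_cast
      linarith
    · push_cast
      linarith
    · exact (scale1 a0 g hg l m).mpr h3
  · intro m hm
    simp only [coe_filter, Set.mem_ofPred_eq, mem_Icc, Int.ceil_le, Int.le_floor] at hm ⊢
    obtain ⟨⟨h1, h2⟩, h3⟩ := hm
    obtain ⟨-, j, hj⟩ := scale2 a0 g _ _ h3
    rw [hj] at h3 h1 h2 ⊢
    rw [Int.mul_ediv_cancel_left _ (by omega)]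
    push_cast at h1 h2
    refine ⟨⟨?_, ?_⟩, ?_⟩
    · rw [← neg_div, div_le_iff₀ hg0]
      linarith
    · rw [le_div_iff₀ hg0]
      linarith
    · exact (scale1 a0 g hg l j).mp h3
  · intro m _
    simp only
    exact Int.mul_ediv_cancel_left _ (by omega)
  · intro m hm
    simp only [coe_filter, Set.mem_ofPred_eq, mem_Icc, Int.ceil_le, Int.le_floor] at hm
    obtain ⟨_, h3⟩ := hm
    obtain ⟨-, h4⟩ := scale2 a0 g _ _ h3
    simp only
    exact Int.mul_ediv_cancel' h4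

theorem nm_zero (a0 : ZI) (g : ℕ) (M : ℝ) (l : ℤ) (hl : ¬ (g : ℤ) ∣ l) : nm M (((g : ℕ) : ZI) * a0) l = 0 := by
  classical
  unfold nm
  rw [Nat.cast_eq_zero, card_eq_zero, filter_eq_empty_iff]
  intro m _ h
  exact hl (scale2 a0 g _ _ h).1

/-- the sum for `a = g a₀` -/
theorem sum_scale (a0 : ZI) (g : ℕ) (hg : 1 ≤ g) (h1 : ct a0 = 1) (M L : ℝ) (lam : ℤ → ℝ) :
    ∑ l ∈ Icc 1 ⌊L⌋, lam l * (nm M (((g : ℕ) : ZI) * a0) l - 2 * M * (kap l (((g : ℕ) : ZI) * a0) /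
      nz (((g : ℕ) : ZI) * a0))) =
    ∑ l ∈ Icc (1 : ℤ) ⌊L / g⌋, lam (g * l) * (nm (M / g) a0 l - 2 * (M / g) / nz a0) := by
  classical
  have hg0 : (0 : ℝ) < g := by exact_mod_cast hg
  have hz : ∀ l ∈ Icc (1 : ℤ) ⌊L⌋, ¬ (g : ℤ) ∣ l → lam l * (nm M (((g : ℕ) : ZI) * a0) l - 2 * M *
      (kap l (((g : ℕ) : ZI) * a0) / nz (((g : ℕ) : ZI) * a0))) = 0 := by
    intro l _ hl
    rw [nm_zero a0 g M l hl]
    unfold kap
    rw [ct_scale a0 g h1, if_neg hl]
    simp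
  rw [← sum_filter_add_sum_filter_not (Icc 1 ⌊L⌋) (fun l : ℤ => (g : ℤ) ∣ l)]
  rw [sum_eq_zero (s := (Icc 1 ⌊L⌋).filter (fun l : ℤ => ¬ (g : ℤ) ∣ l))
    (fun l hl => hz l (mem_filter.mp hl).1 (mem_filter.mp hl).2), add_zero]
  symm
  apply sum_nbij' (i := fun l => (g : ℤ) * l) (j := fun l => l / (g : ℤ))
  · intro l hl
    rw [mem_Icc, Int.le_floor, le_div_iff₀ hg0] at hl
    rw [mem_filter, mem_Icc, Int.le_floor]
    refine ⟨⟨?_, ?_⟩, dvd_mul_right _ _⟩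
    · have : (1 : ℤ) ≤ g := by exact_mod_cast hg
      nlinarith [hl.1]
    · push_cast
      linarith [hl.2]
  · intro l hl
    rw [mem_filter, mem_Icc, Int.le_floor] at hl
    obtain ⟨⟨h2, h3⟩, j, rfl⟩ := hl
    rw [Int.mul_ediv_cancel_left _ (by omega), mem_Icc, Int.le_floor, le_div_iff₀ hg0]
    push_cast at h3
    refine ⟨?_, by linarith⟩
    have : (1 : ℤ) ≤ g := by exact_mod_cast hg
    by_contra hcon
    push Not at hcon
    have : j ≤ 0 := by omega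
    nlinarith
  · intro l _
    exact Int.mul_ediv_cancel_left _ (by omega)
  · intro l hl
    exact Int.mul_ediv_cancel' (mem_filter.mp hl).2
  · intro l _
    rw [nm_scale a0 g hg M l]
    unfold kap
    rw [ct_scale a0 g h1, if_pos (dvd_mul_right _ _), nz_scale]
    congr 2
    field_simp

theorem sum_inv_sq (n : ℕ) : ∑ g ∈ Icc 1 n, 1 / ((g : ℝ) ^ 2) ≤ 2 := by
  have h : ∀ n : ℕ, ∑ g ∈ Icc 1 (n + 1), 1 / ((g : ℝ) ^ 2) ≤ 2 - 1 / ((n : ℝ) + 1) := by
    intro n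
    induction n with
    | zero => simp; norm_num
    | succ n ih =>
      rw [sum_Icc_succ_top (by omega)]
      have h1 : 1 / (((n + 1 + 1 : ℕ) : ℝ) ^ 2) ≤ 1 / ((n : ℝ) + 1) - 1 / (((n + 1 : ℕ) : ℝ) + 1) := by
        push_cast
        rw [div_sub_div _ _ (by positivity) (by positivity), div_le_div_iff₀ (by positivity) (by positivity)]
        ring_nf
        nlinarith [Nat.cast_nonneg (α := ℝ) n]
      linarith
  cases n with
  | zero => simp
  | succ n =>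
    have := h n
    have h2 : (0 : ℝ) ≤ 1 / ((n : ℝ) + 1) := by positivity
    linarith

theorem ct_pos {a : ZI} (ha : a ≠ 0) : 1 ≤ ct a := by
  unfold ct
  by_contra h
  push Not at h
  have h1 : Int.gcd a.re a.im = 0 := by omega
  rw [Int.gcd_eq_zero_iff] at h1
  exact ha (Zsqrtd.ext h1.1 h1.2)

/-- the primitive part -/
theorem prim_part {a : ZI} (ha : a ≠ 0) : ∃ a0 : ZI, a = ((ct a : ℕ) : ZI) * a0 ∧ ct a0 = 1 ∧ a0 ≠ 0 := by
  have h1 := ct_pos ha
  have hre : ((ct a : ℕ) : ℤ) ∣ a.re := Int.gcd_dvd_left _ _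
  have him : ((ct a : ℕ) : ℤ) ∣ a.im := Int.gcd_dvd_right _ _
  obtain ⟨x, hx⟩ := hre
  obtain ⟨y, hy⟩ := him
  have h2 : a = ((ct a : ℕ) : ZI) * ⟨x, y⟩ := by
    rw [smul_mk]
    exact Zsqrtd.ext hx hy
  refine ⟨⟨x, y⟩, h2, ?_, ?_⟩
  · have h3 : ct a = ct a * Int.gcd x y := by
      have h4 : ct a = Int.gcd ((ct a : ℤ) * x) ((ct a : ℤ) * y) := by
        rw [← hx, ← hy]
        rfl
      rw [Int.gcd_mul_left] at h4
      simpa using h4
    unfold ct at h3 ⊢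
    simp only
    have h5 : Int.gcd a.re a.im * 1 = Int.gcd a.re a.im * Int.gcd x y := by
      rw [mul_one]
      exact h3
    exact (Nat.eq_of_mul_eq_mul_left h1 h5).symm
  · intro h3
    rw [h3, mul_zero] at h2
    exact ha h2

open Classical in
/-- the primitive part -/
noncomputable def pr (a : ZI) : ZI := if h : a ≠ 0 then (prim_part h).choose else 0

theorem pr_spec {a : ZI} (ha : a ≠ 0) : a = ((ct a : ℕ) : ZI) * pr a ∧ ct (pr a) = 1 ∧ pr a ≠ 0 := by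
  unfold pr
  rw [dif_pos ha]
  exact (prim_part ha).choose_spec

/-- task TI -/
theorem ti (h0 : S_DVB) (h1 : S_RLS) : S_TI := by
  classical
  intro ε hε
  by_cases hε1 : 1 < ε
  · refine ⟨1, one_pos, ?_⟩
    intro M L D lam hM hL hLM
    exfalso
    have : M ^ (1 - ε) < 1 := Real.rpow_lt_one_of_one_lt_of_neg (by linarith) (by linarith)
    linarith
  push Not at hε1
  obtain ⟨hroot, CR, hCR, hR⟩ := h1
  obtain ⟨C, hC, hb⟩ := blockbound h0 CR hCR hR hroot ε hε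
  set δ : ℝ := ε / 100 with hδ
  have hδ0 : 0 < δ := by positivity
  refine ⟨C * 2 * (4 / δ + 1), by positivity, ?_⟩
  intro M L D lam hM hL hLM hD hDL hlam
  have hM0 : 0 < M := by linarith
  set v : ℝ := M ^ δ with hv
  have hv1 : 1 ≤ v := Real.one_le_rpow (by linarith) hδ0.le
  have hvpos : 0 < v := by linarith
  have hv100 : v ^ 100 = M ^ ε := by
    rw [hv, ← Real.rpow_natCast, ← Real.rpow_mul hM0.le, hδ]
    congr 1
    push_cast
    ring
  have hMe : M ^ (1 - ε) * v ^ 100 = M := by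
    rw [hv100, ← Real.rpow_add hM0]
    simp
  have hLM' : L * v ^ 100 ≤ M := by
    calc L * v ^ 100 ≤ M ^ (1 - ε) * v ^ 100 := by gcongr
      _ = M := hMe
  have hDLM : D * v ^ 100 ≤ L * M := by
    calc D * v ^ 100 ≤ (L * M ^ (1 - ε)) * v ^ 100 := by gcongr
      _ = L * (M ^ (1 - ε) * v ^ 100) := by ring
      _ = L * M := by rw [hMe]
  have hLleM : L ≤ M := by
    calc L = L * 1 := (mul_one _).symm
      _ ≤ L * v ^ 100 := mul_le_mul_of_nonneg_left (one_le_pow₀ hv1) (by linarith)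
      _ ≤ M := hLM'
  have hDM : D ≤ M ^ 2 := by
    calc D = D * 1 := (mul_one _).symm
      _ ≤ D * v ^ 100 := mul_le_mul_of_nonneg_left (one_le_pow₀ hv1) (by linarith)
      _ ≤ L * M := hDLM
      _ ≤ M * M := mul_le_mul_of_nonneg_right hLleM hM0.le
      _ = M ^ 2 := by ring
  set F : ZI → ℝ := fun a => |∑ l ∈ Icc 1 ⌊L⌋, lam l * (nm M a l - 2 * M * (kap l a / nz a))| with hF
  set φ : ZI → ℕ × ℕ := fun a => (ct a, Nat.log 2 (Zsqrtd.norm (pr a)).natAbs) with hφ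
  set I : ℕ := Nat.log 2 ⌊D⌋₊ + 1 with hI
  have hnzn : ∀ a : ZI, nz a = (((Zsqrtd.norm a).natAbs : ℕ) : ℝ) := by
    intro a
    have h2 : 0 ≤ Zsqrtd.norm a := by
      have h3 := nz_nonneg a
      unfold nz at h3
      exact_mod_cast h3
    unfold nz
    rw [Nat.cast_natAbs, abs_of_nonneg h2]
  have hfac : ∀ a ∈ bl D, nz a = (ct a : ℝ) ^ 2 * nz (pr a) ∧ (1 : ℝ) ≤ ct a ∧ 1 ≤ nz (pr a) := by
    intro a ha
    rw [mem_bl] at ha
    obtain ⟨e1, e2, e3⟩ := pr_spec ha.1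
    refine ⟨?_, by exact_mod_cast ct_pos ha.1, ?_⟩
    · conv_lhs => rw [e1]
      rw [nz_scale]
    · have := norm_pos_int e3
      unfold nz
      exact_mod_cast this
  have hmaps : ∀ a ∈ bl D, φ a ∈ Icc 1 ⌊D⌋₊ ×ˢ range I := by
    intro a ha
    obtain ⟨e1, e2, e3⟩ := hfac a ha
    have e4 : nz a ≤ D := ((mem_bl _ _).mp ha).2
    rw [mem_product, mem_Icc, mem_range]
    refine ⟨⟨by exact_mod_cast e2, ?_⟩, ?_⟩
    · show ct a ≤ ⌊D⌋₊
      apply Nat.le_floor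
      calc (ct a : ℝ) = ct a * 1 := (mul_one _).symm
        _ ≤ ct a * (ct a * nz (pr a)) := by
          apply mul_le_mul_of_nonneg_left _ (by linarith)
          nlinarith
        _ = nz a := by rw [e1]; ring
        _ ≤ D := e4
    · show Nat.log 2 (Zsqrtd.norm (pr a)).natAbs < I
      rw [hI, Nat.lt_succ_iff]
      apply Nat.log_mono_right
      apply Nat.le_floor
      rw [← hnzn]
      calc nz (pr a) = 1 * nz (pr a) := (one_mul _).symm
        _ ≤ (ct a : ℝ) ^ 2 * nz (pr a) := by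
          apply mul_le_mul_of_nonneg_right _ (by linarith)
          exact one_le_pow₀ e2
        _ = nz a := e1.symm
        _ ≤ D := e4
  have hfib : ∀ p ∈ Icc 1 ⌊D⌋₊ ×ˢ range I, ∑ a ∈ (bl D).filter (fun a => φ a = p), F a ≤
      C * (L * M / ((p.1 : ℝ) ^ 2 * v ^ 20)) := by
    intro p hp
    rw [mem_product, mem_Icc] at hp
    obtain ⟨g, i⟩ := p
    simp only at hp ⊢
    have hg1 : 1 ≤ g := hp.1.1
    have hgr : (1 : ℝ) ≤ g := by exact_mod_cast hg1
    by_cases hemp : ((bl D).filter (fun a => φ a = (g, i))) = ∅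
    · rw [hemp, sum_empty]
      positivity
    · obtain ⟨a1, ha1⟩ := nonempty_iff_ne_empty.mpr hemp
      have hlow : ∀ a ∈ (bl D).filter (fun a => φ a = (g, i)), (2 : ℝ) ^ i ≤ nz (pr a) ∧
          nz (pr a) ≤ 2 * (2 : ℝ) ^ i ∧ ct a = g := by
        intro a ha
        rw [mem_filter] at ha
        obtain ⟨ha2, ha3⟩ := ha
        obtain ⟨e1, e2, e3⟩ := hfac a ha2
        have h4 : ct a = g := congrArg Prod.fst ha3
        have h5 : Nat.log 2 (Zsqrtd.norm (pr a)).natAbs = i := congrArg Prod.snd ha3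
        rw [hnzn] at e3 ⊢
        have h6 : (Zsqrtd.norm (pr a)).natAbs ≠ 0 := by
          intro h
          rw [h] at e3
          norm_num at e3
        refine ⟨?_, ?_, h4⟩
        · have := Nat.pow_log_le_self 2 h6
          rw [h5] at this
          exact_mod_cast this
        · have := Nat.lt_pow_succ_log_self (b := 2) (by norm_num) (Zsqrtd.norm (pr a)).natAbs
          rw [h5, Nat.succ_eq_add_one, pow_succ, mul_comm] at this
          exact_mod_cast this.le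
      have hgD : (g : ℝ) ^ 2 * 2 ^ i * v ^ 100 ≤ L * M := by
        obtain ⟨e1, e2, e3⟩ := hlow a1 ha1
        have e4 := (mem_filter.mp ha1).1
        obtain ⟨f1, _, _⟩ := hfac a1 e4
        have e5 : nz a1 ≤ D := ((mem_bl _ _).mp e4).2
        rw [e3] at f1
        calc (g : ℝ) ^ 2 * 2 ^ i * v ^ 100 ≤ (g : ℝ) ^ 2 * nz (pr a1) * v ^ 100 := by gcongr
          _ = nz a1 * v ^ 100 := by rw [f1]
          _ ≤ D * v ^ 100 := by gcongr
          _ ≤ L * M := hDLM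
      have hbb := hb M L (2 ^ i) g (fun l => lam (g * l)) hM hL hLM' (one_le_pow₀ (by norm_num)) hg1 hgD
        (fun l => hlam.1 _)
      refine le_trans ?_ hbb
      set G : ZI → ℝ := fun a => |∑ l ∈ Icc (1 : ℤ) ⌊L / g⌋, lam (g * l) * (nm (M / g) a l - 2 * (M / g) / nz a)| with hG
      have hFG : ∀ a ∈ (bl D).filter (fun a => φ a = (g, i)), F a = G (pr a) := by
        intro a ha
        obtain ⟨_, _, e3⟩ := hlow a ha
        have ha0 : a ≠ 0 := ((mem_bl _ _).mp (mem_filter.mp ha).1).1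
        obtain ⟨f1, f2, _⟩ := pr_spec ha0
        rw [e3] at f1
        show |∑ l ∈ Icc 1 ⌊L⌋, lam l * (nm M a l - 2 * M * (kap l a / nz a))| = _
        have h7 := sum_scale (pr a) g hg1 f2 M L lam
        rw [← f1] at h7
        rw [h7]
      have hinj : Set.InjOn pr ((bl D).filter (fun a => φ a = (g, i)) : Set ZI) := by
        intro a ha b hb' hab
        have ha' : a ∈ (bl D).filter (fun a => φ a = (g, i)) := ha
        have hb'' : b ∈ (bl D).filter (fun a => φ a = (g, i)) := hb'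
        have ha0 : a ≠ 0 := ((mem_bl _ _).mp (mem_filter.mp ha').1).1
        have hb0 : b ≠ 0 := ((mem_bl _ _).mp (mem_filter.mp hb'').1).1
        rw [(pr_spec ha0).1, (pr_spec hb0).1, (hlow a ha').2.2, (hlow b hb'').2.2, hab]
      rw [sum_congr rfl hFG, ← sum_image (f := G) hinj]
      apply sum_le_sum_of_subset_of_nonneg
      · intro b hb'
        rw [mem_image] at hb'
        obtain ⟨a, ha, rfl⟩ := hb'
        obtain ⟨e1, e2, e3⟩ := hlow a ha
        have ha0 : a ≠ 0 := ((mem_bl _ _).mp (mem_filter.mp ha).1).1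
        obtain ⟨f1, f2, f3⟩ := pr_spec ha0
        unfold Ab
        rw [mem_filter, mem_bl]
        exact ⟨⟨f3, e2⟩, f2, e1⟩
      · intro b _ _
        exact abs_nonneg _
  have hIb : (I : ℝ) ≤ (4 / δ + 1) * v := by
    have h2 : (Nat.log 2 ⌊D⌋₊ : ℝ) ≤ 4 / δ * v := by
      have hfl : 1 ≤ ⌊D⌋₊ := Nat.one_le_floor_iff _ |>.mpr hD
      have h3 : ((2 : ℝ) ^ (Nat.log 2 ⌊D⌋₊)) ≤ M ^ 2 := by
        have h4 := Nat.pow_log_le_self 2 (by omega : ⌊D⌋₊ ≠ 0)
        have h5 : ((2 : ℝ) ^ (Nat.log 2 ⌊D⌋₊)) ≤ (⌊D⌋₊ : ℝ) := by exact_mod_cast h4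
        have h6 : (⌊D⌋₊ : ℝ) ≤ D := Nat.floor_le (by linarith)
        linarith
      have h7 : (Nat.log 2 ⌊D⌋₊ : ℝ) * Real.log 2 ≤ 2 * Real.log M := by
        have := Real.log_le_log (by positivity) h3
        rw [Real.log_pow, Real.log_pow] at this
        exact_mod_cast this
      have h8 : Real.log M ≤ v / δ := Real.log_le_rpow_div hM0.le hδ0
      have h9 : (1 : ℝ) / 2 ≤ Real.log 2 := by
        have := Real.log_two_gt_d9
        linarith
      have h10 : (0 : ℝ) ≤ (Nat.log 2 ⌊D⌋₊ : ℝ) := Nat.cast_nonneg _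
      have h11 : (Nat.log 2 ⌊D⌋₊ : ℝ) * (1 / 2) ≤ (Nat.log 2 ⌊D⌋₊ : ℝ) * Real.log 2 :=
        mul_le_mul_of_nonneg_left h9 h10
      have h12 : 4 / δ * v = 4 * (v / δ) := by ring
      linarith
    have h13 : (I : ℝ) = (Nat.log 2 ⌊D⌋₊ : ℝ) + 1 := by
      rw [hI]
      push_cast
      ring
    rw [h13]
    calc (Nat.log 2 ⌊D⌋₊ : ℝ) + 1 ≤ 4 / δ * v + v := add_le_add h2 hv1
      _ = (4 / δ + 1) * v := by ring
  rw [← sum_fiberwise_of_maps_to hmaps]
  calc ∑ p ∈ Icc 1 ⌊D⌋₊ ×ˢ range I, ∑ a ∈ (bl D).filter (fun a => φ a = p), F a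
      ≤ ∑ p ∈ Icc 1 ⌊D⌋₊ ×ˢ range I, C * (L * M / ((p.1 : ℝ) ^ 2 * v ^ 20)) := sum_le_sum hfib
    _ = (C * (L * M / v ^ 20)) * I * ∑ g ∈ Icc 1 ⌊D⌋₊, 1 / ((g : ℝ) ^ 2) := by
        rw [sum_product, mul_sum]
        apply sum_congr rfl
        intro g _
        simp only [sum_const, card_range, nsmul_eq_mul]
        rw [← div_div]
        ring
    _ ≤ (C * (L * M / v ^ 20)) * ((4 / δ + 1) * v) * 2 := by
        apply mul_le_mul _ (sum_inv_sq _) _ (by positivity)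
        · exact mul_le_mul_of_nonneg_left hIb (by positivity)
        · apply sum_nonneg
          intro g _
          positivity
    _ = C * 2 * (4 / δ + 1) * L * (M / v ^ 19) := by
        field_simp
    _ ≤ C * 2 * (4 / δ + 1) * L * M ^ (1 - ε / 10) := by
        apply mul_le_mul_of_nonneg_left _ (by positivity)
        rw [div_le_iff₀ (by positivity)]
        have h14 : M = M ^ (1 - ε / 10) * v ^ 10 := by
          rw [hv, ← Real.rpow_natCast, ← Real.rpow_mul hM0.le, ← Real.rpow_add hM0, hδ]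
          conv_lhs => rw [← Real.rpow_one M]
          congr 1
          push_cast
          ring
        calc M = M ^ (1 - ε / 10) * v ^ 10 := h14
          _ ≤ M ^ (1 - ε / 10) * v ^ 19 := by
            apply mul_le_mul_of_nonneg_left _ (by positivity)
            exact pow_le_pow_right₀ hv1 (by norm_num)

end Pool.Agent.N458.GN
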