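import Pool.Agent.N782.GN.StmT

/-!
# Project GN (helper782), task TI: a kernel which is a trigonometric polynomial
-/

set_option autoImplicit false

namespace Pool.Agent.N458.GN

open Finset
open Pool.Agent.N782.GN

theorem ee_zero : ee 0 = 1 := by
  unfold ee
  simp

theorem ee_add (x y : ℝ) : ee (x + y) = ee x * ee y := by
  unfold ee
  rw [← Complex.exp_add]
  congr 1
  push_cast
  ring

theorem ee_int (n : ℤ) : ee (n : ℝ) = 1 := by
  unfold ee
  rw [Complex.exp_eq_one_iff]
  exact ⟨n, by push_cast; ring⟩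

theorem norm_ee (x : ℝ) : ‖ee x‖ = 1 := by
  unfold ee
  have : 2 * (Real.pi : ℂ) * Complex.I * (x : ℂ) = ((2 * Real.pi * x : ℝ) : ℂ) * Complex.I := by
    push_cast; ring
  rw [this]
  exact Complex.norm_exp_ofReal_mul_I _

theorem conj_ee (x : ℝ) : (starRingEnd ℂ) (ee x) = ee (-x) := by
  unfold ee
  rw [← Complex.exp_conj]
  congr 1
  simp only [map_mul, Complex.conj_I, Complex.conj_ofReal, map_ofNat]
  push_cast
  ring

theorem ee_nat_mul (n : ℕ) (x : ℝ) : ee (n * x) = ee x ^ n := by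
  unfold ee
  rw [← Complex.exp_nat_mul]
  congr 1
  push_cast
  ring

theorem continuous_ee : Continuous ee := by
  unfold ee
  fun_prop

theorem ee_sub_one {x : ℝ} {w : ℝ} (h : ∀ n : ℤ, w ≤ |x - n|) : 4 * w ≤ ‖ee x - 1‖ := by
  have h1 := h (round x)
  have h2 : |x - round x| ≤ 1 / 2 := abs_sub_round x
  set u : ℝ := x - round x with hu
  have h3 : ee x = ee u := by
    have : x = u + ((round x : ℤ) : ℝ) := by rw [hu]; ring
    rw [this, ee_add, ee_int, mul_one]
  rw [h3]
  have h4 : ee u = Complex.exp (Complex.I * ((2 * Real.pi * u : ℝ) : ℂ)) := by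
    unfold ee
    congr 1
    push_cast
    ring
  rw [h4, Complex.norm_exp_I_mul_ofReal_sub_one, norm_mul, Real.norm_eq_abs, Real.norm_eq_abs]
  have h5 : 2 * Real.pi * u / 2 = Real.pi * u := by ring
  rw [h5]
  have h6 : |Real.pi * u| ≤ Real.pi / 2 := by
    rw [abs_mul, abs_of_pos Real.pi_pos]
    nlinarith [Real.pi_pos]
  have h7 := Real.mul_abs_le_abs_sin h6
  have h8 : 2 / Real.pi * |Real.pi * u| = 2 * |u| := by
    rw [abs_mul, abs_of_pos Real.pi_pos]
    field_simp
  rw [h8] at h7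
  have h9 : |(2 : ℝ)| = 2 := abs_of_pos (by norm_num)
  rw [h9]
  linarith

/-- the kernel -/
theorem kernel (k : ℕ) (hk : 1 ≤ k) (N : ℕ) (hN : 1 ≤ N) : ∃ (c : ℤ → ℝ) (P : ℝ → ℝ),
    Continuous P ∧ (∀ t, 0 ≤ P t) ∧
    (∀ t, (P t : ℂ) = ∑ h ∈ Icc (-((k * N : ℕ) : ℤ)) ((k * N : ℕ) : ℤ), (c h : ℂ) * ee (h * t)) ∧
    c 0 = 1 ∧ (∀ h, |c h| ≤ 1) ∧
    (∀ (w t : ℝ), 0 < w → (∀ n : ℤ, w ≤ |t - n|) → P t ≤ k * N * (1 / (2 * w * N)) ^ (2 * k)) := by
  classical
  set Q : Polynomial ℝ := (∑ j ∈ range N, Polynomial.X ^ j) ^ k with hQ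
  have hdeg : Q.natDegree < k * N := by
    have h1 : (∑ j ∈ range N, (Polynomial.X : Polynomial ℝ) ^ j).natDegree ≤ N - 1 := by
      apply Polynomial.natDegree_sum_le_of_forall_le
      intro i hi
      rw [Polynomial.natDegree_X_pow]
      have := mem_range.mp hi
      omega
    have h2 : Q.natDegree ≤ k * (N - 1) := by
      rw [hQ]
      exact Polynomial.natDegree_pow_le_of_le k h1
    have h3 : k * (N - 1) < k * N := Nat.mul_lt_mul_of_pos_left (by omega) (by omega)
    omega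
  set r : ℕ → ℝ := fun n => Q.coeff n with hr
  set Z : ℝ := ∑ n ∈ range (k * N), r n ^ 2 with hZ
  have hNr : (0 : ℝ) < N := by exact_mod_cast hN
  have hkr : (0 : ℝ) < k := by exact_mod_cast hk
  have hsum : ∑ n ∈ range (k * N), r n = (N : ℝ) ^ k := by
    have h1 := Polynomial.eval_eq_sum_range' hdeg (1 : ℝ)
    simp only [one_pow, mul_one] at h1
    rw [← h1, hQ]
    simp [Polynomial.eval_finsetSum]
  have hCS : (N : ℝ) ^ (2 * k) ≤ (k * N) * Z := by
    have h1 := sq_sum_le_card_mul_sum_sq (s := range (k * N)) (f := r)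
    rw [hsum, card_range] at h1
    push_cast at h1
    calc (N : ℝ) ^ (2 * k) = ((N : ℝ) ^ k) ^ 2 := by rw [← pow_mul, mul_comm]
      _ ≤ _ := h1
  have hZpos : 0 < Z := by
    have h1 : 0 < (N : ℝ) ^ (2 * k) := by positivity
    by_contra h2
    push Not at h2
    have h3 : (k * N : ℝ) * Z ≤ 0 := mul_nonpos_of_nonneg_of_nonpos (by positivity) h2
    linarith
  set V : ℝ → ℂ := fun t => ∑ n ∈ range (k * N), (r n : ℂ) * ee (n * t) with hV
  have hVU : ∀ t, V t = (∑ j ∈ range N, ee t ^ j) ^ k := by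
    intro t
    have h1 := Polynomial.aeval_eq_sum_range' hdeg (ee t)
    have h2 : Polynomial.aeval (ee t) Q = (∑ j ∈ range N, ee t ^ j) ^ k := by
      rw [hQ]
      simp [map_pow, map_sum]
    rw [← h2, h1, hV]
    apply sum_congr rfl
    intro n _
    rw [ee_nat_mul, Complex.real_smul]
  have hconj : ∀ t, ((‖V t‖ ^ 2 : ℝ) : ℂ) =
      ∑ p ∈ range (k * N) ×ˢ range (k * N), ((r p.1 * r p.2 : ℝ) : ℂ) * ee ((((p.1 : ℤ) - (p.2 : ℤ) : ℤ) : ℝ) * t) := by
    intro t
    rw [Complex.ofReal_pow, ← Complex.mul_conj', hV]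
    simp only [map_sum, map_mul, Complex.conj_ofReal, conj_ee]
    rw [sum_mul_sum, sum_product]
    apply sum_congr rfl
    intro m _
    apply sum_congr rfl
    intro n _
    have h1 : ((((m : ℤ) - (n : ℤ) : ℤ) : ℝ) * t) = m * t + -(n * t) := by push_cast; ring
    rw [h1, ee_add]
    push_cast
    ring
  set S : ℤ → Finset (ℕ × ℕ) := fun h => (range (k * N) ×ˢ range (k * N)).filter
    (fun p => (p.1 : ℤ) - (p.2 : ℤ) = h) with hS
  refine ⟨fun h => (∑ p ∈ S h, r p.1 * r p.2) / Z, fun t => ‖V t‖ ^ 2 / Z, ?_, ?_, ?_, ?_, ?_, ?_⟩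
  · have : Continuous V := by
      rw [hV]
      apply continuous_finsetSum
      intro n _
      exact continuous_const.mul (continuous_ee.comp (by fun_prop))
    fun_prop
  · intro t
    positivity
  · intro t
    rw [Complex.ofReal_div, hconj]
    rw [← sum_fiberwise_of_maps_to (s := range (k * N) ×ˢ range (k * N))
      (t := Icc (-((k * N : ℕ) : ℤ)) ((k * N : ℕ) : ℤ)) (g := fun p => (p.1 : ℤ) - (p.2 : ℤ))
      (f := fun p => ((r p.1 * r p.2 : ℝ) : ℂ) * ee ((((p.1 : ℤ) - (p.2 : ℤ) : ℤ) : ℝ) * t))]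
    · rw [sum_div]
      apply sum_congr rfl
      intro h _
      rw [sum_div]
      push_cast
      rw [sum_div, sum_mul]
      apply sum_congr rfl
      intro p hp
      have h1 := (mem_filter.mp hp).2
      rw [← h1]
      push_cast
      ring
    · intro p hp
      rw [mem_product, mem_range, mem_range] at hp
      rw [mem_Icc]
      push_cast
      constructor <;> omega
  · show (∑ p ∈ S 0, r p.1 * r p.2) / Z = 1
    rw [div_eq_one_iff_eq hZpos.ne', hZ, hS]
    symm
    apply sum_nbij' (i := fun n => (n, n)) (j := fun p => p.1)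
    · intro n hn
      simp only [mem_filter, mem_product]
      exact ⟨⟨hn, hn⟩, by simp⟩
    · intro p hp
      simp only [mem_filter, mem_product] at hp
      exact hp.1.1
    · intro n _
      rfl
    · intro p hp
      simp only [mem_filter, mem_product] at hp
      have : p.1 = p.2 := by omega
      exact Prod.ext rfl this
    · intro n _
      ring
  · intro h
    show |(∑ p ∈ S h, r p.1 * r p.2) / Z| ≤ 1
    rw [abs_div, abs_of_pos hZpos, div_le_one hZpos]
    have h1 : ∑ p ∈ S h, r p.1 ^ 2 ≤ Z := by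
      have hinj : Set.InjOn (fun p : ℕ × ℕ => p.1) (S h : Set (ℕ × ℕ)) := by
        intro p hp q hq hpq
        have hp' := (mem_filter.mp hp).2
        have hq' := (mem_filter.mp hq).2
        simp only at hpq
        exact Prod.ext hpq (by omega)
      rw [← sum_image (f := fun n => r n ^ 2) hinj]
      apply sum_le_sum_of_subset_of_nonneg
      · intro n hn
        rw [mem_image] at hn
        obtain ⟨p, hp, rfl⟩ := hn
        exact (mem_product.mp (mem_filter.mp hp).1).1
      · intro n _ _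
        positivity
    have h2 : ∑ p ∈ S h, r p.2 ^ 2 ≤ Z := by
      have hinj : Set.InjOn (fun p : ℕ × ℕ => p.2) (S h : Set (ℕ × ℕ)) := by
        intro p hp q hq hpq
        have hp' := (mem_filter.mp hp).2
        have hq' := (mem_filter.mp hq).2
        simp only at hpq
        exact Prod.ext (by omega) hpq
      rw [← sum_image (f := fun n => r n ^ 2) hinj]
      apply sum_le_sum_of_subset_of_nonneg
      · intro n hn
        rw [mem_image] at hn
        obtain ⟨p, hp, rfl⟩ := hn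
        exact (mem_product.mp (mem_filter.mp hp).1).2
      · intro n _ _
        positivity
    calc |∑ p ∈ S h, r p.1 * r p.2| ≤ ∑ p ∈ S h, |r p.1 * r p.2| := abs_sum_le_sum_abs _ _
      _ ≤ ∑ p ∈ S h, (r p.1 ^ 2 + r p.2 ^ 2) / 2 := by
        apply sum_le_sum
        intro p _
        rw [abs_mul]
        nlinarith [sq_nonneg (|r p.1| - |r p.2|), sq_abs (r p.1), sq_abs (r p.2)]
      _ = ((∑ p ∈ S h, r p.1 ^ 2) + ∑ p ∈ S h, r p.2 ^ 2) / 2 := by
        rw [← sum_add_distrib, sum_div]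
      _ ≤ Z := by linarith
  · intro w t hw ht
    show ‖V t‖ ^ 2 / Z ≤ _
    have h1 := ee_sub_one ht
    have h0 : ee t - 1 ≠ 0 := by
      intro h
      rw [h, norm_zero] at h1
      linarith
    have h2 : ‖∑ j ∈ range N, ee t ^ j‖ ≤ 1 / (2 * w) := by
      have h3 := geom_sum_mul (ee t) N
      have h4 : ‖∑ j ∈ range N, ee t ^ j‖ * ‖ee t - 1‖ ≤ 2 := by
        rw [← norm_mul, h3]
        calc ‖ee t ^ N - 1‖ ≤ ‖ee t ^ N‖ + ‖(1 : ℂ)‖ := norm_sub_le _ _
          _ = 2 := by rw [norm_pow, norm_ee]; norm_num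
      rw [le_div_iff₀ (by positivity)]
      nlinarith [norm_nonneg (∑ j ∈ range N, ee t ^ j)]
    have h5 : ‖V t‖ ^ 2 ≤ (1 / (2 * w)) ^ (2 * k) := by
      rw [hVU, norm_pow, ← pow_mul, mul_comm k 2]
      exact pow_le_pow_left₀ (norm_nonneg _) h2 _
    rw [div_le_iff₀ hZpos]
    have h6 : (1 : ℝ) / (2 * w * N) = 1 / (2 * w) * (1 / N) := by
      field_simp
    calc ‖V t‖ ^ 2 ≤ (1 / (2 * w)) ^ (2 * k) := h5
      _ = (1 / (2 * w)) ^ (2 * k) * (1 / (N : ℝ)) ^ (2 * k) * (N : ℝ) ^ (2 * k) := by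
        rw [mul_assoc, ← mul_pow, one_div_mul_cancel hNr.ne', one_pow, mul_one]
      _ ≤ (1 / (2 * w)) ^ (2 * k) * (1 / (N : ℝ)) ^ (2 * k) * ((k * N) * Z) := by
        apply mul_le_mul_of_nonneg_left hCS
        positivity
      _ = k * N * (1 / (2 * w * N)) ^ (2 * k) * Z := by
        rw [h6, mul_pow]
        ring

end Pool.Agent.N458.GN
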