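import Pool.Agent.N458.GN.TIA

/-!
# Project GN (helper782), task TI: counting integers with a smooth kernel
-/

set_option autoImplicit false

namespace Pool.Agent.N458.GN

open Finset
open Pool.Agent.N782.GN

theorem far_floor {w t : ℝ} (h : ∀ n : ℤ, w ≤ |t - n|) :
    (⌊t⌋ : ℝ) + w ≤ t ∧ t ≤ (⌊t⌋ : ℝ) + 1 - w := by
  have h1 := h ⌊t⌋
  have h2 := h (⌊t⌋ + 1)
  have h3 := Int.floor_le t
  have h4 := Int.lt_floor_add_one t
  rw [abs_of_nonneg (by linarith)] at h1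
  rw [abs_of_nonpos (by push_cast; linarith)] at h2
  push_cast at h2
  constructor <;> linarith

theorem floor_part (P : ℝ → ℝ) (hc : Continuous P) (hP : ∀ t, 0 ≤ P t) (hper : Function.Periodic P 1)
    (hint : ∫ t in (0 : ℝ)..1, P t = 1) (w τ : ℝ) (hw : 0 < w) (hτ : 0 ≤ τ)
    (hdec : ∀ t : ℝ, (∀ n : ℤ, w ≤ |t - n|) → P t ≤ τ) (t : ℝ) :
    |∫ x in ((⌊t⌋ : ℝ) + 1 / 2)..t, P x| ≤ 1 ∧
    ((∀ n : ℤ, w ≤ |t - n|) → |∫ x in ((⌊t⌋ : ℝ) + 1 / 2)..t, P x| ≤ τ / 2) := by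
  have h3 := Int.floor_le t
  have h4 := Int.lt_floor_add_one t
  constructor
  · have h5 : ∫ x in (⌊t⌋ : ℝ)..((⌊t⌋ : ℝ) + 1), P x = 1 := by
      have := hper.intervalIntegral_add_eq (⌊t⌋ : ℝ) 0
      rw [zero_add] at this
      rw [this, hint]
    have h6 : |∫ x in ((⌊t⌋ : ℝ) + 1 / 2)..t, P x| ≤ |∫ x in (⌊t⌋ : ℝ)..((⌊t⌋ : ℝ) + 1), P x| := by
      apply intervalIntegral.abs_integral_mono_interval
      · rw [Set.uIoc_of_le (by linarith : (⌊t⌋ : ℝ) ≤ (⌊t⌋ : ℝ) + 1)]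
        intro x hx
        rw [Set.mem_uIoc] at hx
        rw [Set.mem_Ioc]
        rcases hx with hx | hx
        · exact ⟨by linarith [hx.1], by linarith [hx.2]⟩
        · exact ⟨by linarith [hx.1], by linarith [hx.2]⟩
      · exact Filter.Eventually.of_forall (fun x => hP x)
      · exact hc.intervalIntegrable _ _
    rw [h5, abs_one] at h6
    exact h6
  · intro hfar
    obtain ⟨ha, hb⟩ := far_floor hfar
    have h7 : ‖∫ x in ((⌊t⌋ : ℝ) + 1 / 2)..t, P x‖ ≤ τ * |t - ((⌊t⌋ : ℝ) + 1 / 2)| := by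
      apply intervalIntegral.norm_integral_le_of_norm_le_const
      intro x hx
      rw [Real.norm_eq_abs, abs_of_nonneg (hP x)]
      apply hdec
      have hx1 : (⌊t⌋ : ℝ) + w ≤ x ∧ x ≤ (⌊t⌋ : ℝ) + 1 - w := by
        rw [Set.mem_uIoc] at hx
        rcases hx with hx | hx
        · exact ⟨by linarith [hx.1], by linarith [hx.2]⟩
        · exact ⟨by linarith [hx.1], by linarith [hx.2]⟩
      intro n
      rcases le_or_gt n ⌊t⌋ with hn | hn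
      · have : (n : ℝ) ≤ ⌊t⌋ := by exact_mod_cast hn
        rw [abs_of_nonneg (by linarith [hx1.1])]
        linarith [hx1.1]
      · have : (⌊t⌋ : ℝ) + 1 ≤ n := by exact_mod_cast hn
        rw [abs_of_nonpos (by linarith [hx1.2])]
        linarith [hx1.2]
    rw [Real.norm_eq_abs] at h7
    refine h7.trans ?_
    have h8 : |t - ((⌊t⌋ : ℝ) + 1 / 2)| ≤ 1 / 2 := by
      rw [abs_le]
      constructor <;> linarith
    calc τ * |t - ((⌊t⌋ : ℝ) + 1 / 2)| ≤ τ * (1 / 2) := mul_le_mul_of_nonneg_left h8 hτ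
      _ = τ / 2 := by ring

theorem count_int (P : ℝ → ℝ) (hc : Continuous P) (hP : ∀ t, 0 ≤ P t) (hper : Function.Periodic P 1)
    (hint : ∫ t in (0 : ℝ)..1, P t = 1) (w τ : ℝ) (hw : 0 < w) (hτ : 0 ≤ τ)
    (hdec : ∀ t : ℝ, (∀ n : ℤ, w ≤ |t - n|) → P t ≤ τ) (t1 t2 : ℝ) :
    |((⌊t2⌋ - ⌈t1⌉ + 1 : ℤ) : ℝ) - ∫ t in t1..t2, P t| ≤ 3 ∧
    ((∀ n : ℤ, w ≤ |t1 - n|) → (∀ n : ℤ, w ≤ |t2 - n|) →
      |((⌊t2⌋ - ⌈t1⌉ + 1 : ℤ) : ℝ) - ∫ t in t1..t2, P t| ≤ τ) := by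
  have hii : ∀ a b : ℝ, IntervalIntegrable P MeasureTheory.volume a b := fun a b => hc.intervalIntegrable a b
  obtain ⟨a1, b1⟩ := floor_part P hc hP hper hint w τ hw hτ hdec t1
  obtain ⟨a2, b2⟩ := floor_part P hc hP hper hint w τ hw hτ hdec t2
  have hmid : ∫ x in ((⌊t1⌋ : ℝ) + 1 / 2)..((⌊t2⌋ : ℝ) + 1 / 2), P x = (⌊t2⌋ : ℝ) - ⌊t1⌋ := by
    have h1 := hper.intervalIntegral_add_zsmul_eq (⌊t2⌋ - ⌊t1⌋) ((⌊t1⌋ : ℝ) + 1 / 2) hii
    have h2 : (⌊t1⌋ : ℝ) + 1 / 2 + (⌊t2⌋ - ⌊t1⌋) • (1 : ℝ) = (⌊t2⌋ : ℝ) + 1 / 2 := by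
      rw [zsmul_eq_mul]
      push_cast
      ring
    have h3 : ∫ x in ((⌊t1⌋ : ℝ) + 1 / 2)..((⌊t1⌋ : ℝ) + 1 / 2 + 1), P x = 1 := by
      have := hper.intervalIntegral_add_eq ((⌊t1⌋ : ℝ) + 1 / 2) 0
      rw [zero_add] at this
      rw [this, hint]
    rw [h2, h3, zsmul_eq_mul] at h1
    rw [h1]
    push_cast
    ring
  have hsplit : ∫ t in t1..t2, P t = ((⌊t2⌋ : ℝ) - ⌊t1⌋) + (∫ x in ((⌊t2⌋ : ℝ) + 1 / 2)..t2, P x) -
      ∫ x in ((⌊t1⌋ : ℝ) + 1 / 2)..t1, P x := by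
    rw [← hmid]
    have h1 := intervalIntegral.integral_add_adjacent_intervals (hii ((⌊t1⌋ : ℝ) + 1 / 2) ((⌊t2⌋ : ℝ) + 1 / 2))
      (hii ((⌊t2⌋ : ℝ) + 1 / 2) t2)
    have h2 := intervalIntegral.integral_add_adjacent_intervals (hii ((⌊t1⌋ : ℝ) + 1 / 2) t1) (hii t1 t2)
    linarith
  constructor
  · rw [hsplit]
    have h5 : (⌊t1⌋ : ℝ) ≤ ⌈t1⌉ ∧ (⌈t1⌉ : ℝ) ≤ ⌊t1⌋ + 1 := by
      constructor
      · exact_mod_cast Int.floor_le_ceil t1
      · exact_mod_cast Int.ceil_le_floor_add_one t1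
    rw [abs_le] at a1 a2 ⊢
    push_cast
    constructor <;> linarith [a1.1, a1.2, a2.1, a2.2, h5.1, h5.2]
  · intro f1 f2
    have c1 := b1 f1
    have c2 := b2 f2
    rw [hsplit]
    have h5 : (⌈t1⌉ : ℝ) = ⌊t1⌋ + 1 := by
      have h6 : ⌈t1⌉ = ⌊t1⌋ + 1 := by
        obtain ⟨ha, hb⟩ := far_floor f1
        rw [Int.ceil_eq_iff]
        push_cast
        constructor <;> linarith
      exact_mod_cast h6
    push_cast
    rw [h5]
    rw [abs_le] at c1 c2 ⊢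
    constructor <;> linarith [c1.1, c1.2, c2.1, c2.2]

theorem norm_pos_int {a : ZI} (ha : a ≠ 0) : 0 < Zsqrtd.norm a := by
  have h := nz_eq a
  have h1 : 0 < nz a := by
    rw [h]
    by_contra h2
    push Not at h2
    have h3 : (a.re : ℝ) = 0 := by nlinarith [sq_nonneg (a.re : ℝ), sq_nonneg (a.im : ℝ)]
    have h4 : (a.im : ℝ) = 0 := by nlinarith [sq_nonneg (a.re : ℝ), sq_nonneg (a.im : ℝ)]
    apply ha
    apply Zsqrtd.ext
    · exact_mod_cast h3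
    · exact_mod_cast h4
  unfold nz at h1
  exact_mod_cast h1

/-- the number of the `m` -/
theorem nm_eq {a : ZI} (ha : a ≠ 0) {ν : ℤ} (hν : ∀ l m : ℤ, a ∣ (⟨l, m⟩ : ZI) ↔ Zsqrtd.norm a ∣ m - ν * l)
    {T : ℝ} (hT : 0 ≤ T) (l : ℤ) :
    nm T a l = ((⌊(T - ν * l) / nz a⌋ - ⌈(-T - ν * l) / nz a⌉ + 1 : ℤ) : ℝ) := by
  classical
  have hd := norm_pos_int ha
  have hdz : 0 < nz a := by unfold nz; exact_mod_cast hd
  have hnz : nz a = ((Zsqrtd.norm a : ℤ) : ℝ) := rfl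
  set t1 : ℝ := (-T - ν * l) / nz a with ht1
  set t2 : ℝ := (T - ν * l) / nz a with ht2
  have h12 : t1 ≤ t2 := by
    rw [ht1, ht2]
    apply div_le_div_of_nonneg_right _ hdz.le
    linarith
  have hcard : ((Icc ⌈-T⌉ ⌊T⌋).filter (fun m : ℤ => a ∣ (⟨l, m⟩ : ZI))).card = (Icc ⌈t1⌉ ⌊t2⌋).card := by
    symm
    apply card_nbij' (i := fun j => ν * l + Zsqrtd.norm a * j) (j := fun m => (m - ν * l) / Zsqrtd.norm a)
    · intro j hj
      simp only [coe_Icc, Set.mem_Icc, Int.ceil_le, Int.le_floor] at hj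
      simp only [coe_filter, Set.mem_ofPred_eq, mem_Icc, Int.ceil_le, Int.le_floor]
      rw [ht1, ht2, div_le_iff₀ hdz, le_div_iff₀ hdz, hnz] at hj
      refine ⟨⟨?_, ?_⟩, ?_⟩
      · push_cast
        linarith [hj.1]
      · push_cast
        linarith [hj.2]
      · rw [hν]
        exact ⟨j, by ring⟩
    · intro m hm
      simp only [coe_filter, Set.mem_ofPred_eq, mem_Icc, Int.ceil_le, Int.le_floor] at hm
      simp only [coe_Icc, Set.mem_Icc, Int.ceil_le, Int.le_floor]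
      obtain ⟨⟨h1, h2⟩, h3⟩ := hm
      rw [hν] at h3
      obtain ⟨j, hj⟩ := h3
      rw [hj, Int.mul_ediv_cancel_left _ hd.ne']
      have hj' : (m : ℝ) - ν * l = nz a * j := by rw [hnz]; exact_mod_cast hj
      rw [ht1, ht2, div_le_iff₀ hdz, le_div_iff₀ hdz]
      constructor <;> linarith
    · intro j _
      simp only [add_sub_cancel_left]
      exact Int.mul_ediv_cancel_left _ hd.ne'
    · intro m hm
      simp only [coe_filter, Set.mem_ofPred_eq, mem_Icc, Int.ceil_le, Int.le_floor] at hm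
      obtain ⟨_, h3⟩ := hm
      rw [hν] at h3
      simp only
      rw [Int.mul_ediv_cancel' h3]
      ring
  unfold nm
  rw [hcard, Int.card_Icc]
  have h3 : ⌈t1⌉ ≤ ⌊t2⌋ + 1 := by
    have h4 : ⌈t1⌉ ≤ ⌊t1⌋ + 1 := Int.ceil_le_floor_add_one t1
    have h5 : ⌊t1⌋ ≤ ⌊t2⌋ := Int.floor_le_floor h12
    linarith
  have h6 : (((⌊t2⌋ + 1 - ⌈t1⌉).toNat : ℕ) : ℤ) = ⌊t2⌋ - ⌈t1⌉ + 1 := by
    rw [Int.toNat_of_nonneg (by linarith)]
    ring
  exact_mod_cast h6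

/-- trivial bound -/
theorem nm_triv {a : ZI} (ha : a ≠ 0) {ν : ℤ} (hν : ∀ l m : ℤ, a ∣ (⟨l, m⟩ : ZI) ↔ Zsqrtd.norm a ∣ m - ν * l)
    {T : ℝ} (hT : 0 ≤ T) (l : ℤ) : |nm T a l - 2 * T / nz a| ≤ 1 := by
  rw [nm_eq ha hν hT l]
  have hd := norm_pos_int ha
  have hdz : 0 < nz a := by unfold nz; exact_mod_cast hd
  have h1 := Int.floor_le ((T - ν * l) / nz a)
  have h2 := Int.lt_floor_add_one ((T - ν * l) / nz a)
  have h3 := Int.le_ceil ((-T - ν * l) / nz a)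
  have h4 := Int.ceil_lt_add_one ((-T - ν * l) / nz a)
  have h5 : 2 * T / nz a = (T - ν * l) / nz a - (-T - ν * l) / nz a := by
    field_simp
    ring
  rw [h5, abs_le]
  push_cast
  constructor <;> linarith

end Pool.Agent.N458.GN
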