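import Pool.Agent.N458.GN.TIB

/-!
# Project GN (helper782), task TI: one block
-/

set_option autoImplicit false

namespace Pool.Agent.N458.GN

open Finset
open Pool.Agent.N782.GN

open Classical in
/-- the primitive Gaussian integers with norm in `[D, 2D]` -/
noncomputable def Ab (D : ℝ) : Finset ZI := (bl (2 * D)).filter (fun a => ct a = 1 ∧ D ≤ nz a)

/-- the large sieve hypothesis -/
def RL (C : ℝ) : Prop := ∀ (D : ℝ) (N : ℕ) (α : ℤ → ℂ), 1 ≤ D → 1 ≤ N →
    ∑ a ∈ (bl D).filter (fun a => ct a = 1), ‖∑ n ∈ Icc (-(N : ℤ)) N, α n * ee (n * nu a / nz a)‖ ^ 2 ≤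
      C * (D + N) * Real.log (D + 2) * ∑ n ∈ Icc (-(N : ℤ)) N, ‖α n‖ ^ 2

theorem ee_periodic_int (h : ℤ) (t : ℝ) : ee (h * (t + 1)) = ee (h * t) := by
  rw [mul_add, mul_one, ee_add, ee_int, mul_one]

/-- the integral of a trigonometric polynomial over a period -/
theorem int_trig (H : ℕ) (c : ℤ → ℝ) (P : ℝ → ℝ) (h0 : c 0 = 1)
    (hP : ∀ t, (P t : ℂ) = ∑ h ∈ Icc (-(H : ℤ)) (H : ℤ), (c h : ℂ) * ee (h * t)) :
    ∫ t in (0 : ℝ)..1, P t = 1 := by
  have h1 : ((∫ t in (0 : ℝ)..1, P t : ℝ) : ℂ) = ∫ t in (0 : ℝ)..1, (P t : ℂ) := by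
    rw [intervalIntegral.integral_ofReal]
  have h2 : ∫ t in (0 : ℝ)..1, (P t : ℂ) =
      ∑ h ∈ Icc (-(H : ℤ)) (H : ℤ), ∫ t in (0 : ℝ)..1, (c h : ℂ) * ee (h * t) := by
    rw [← intervalIntegral.integral_finsetSum]
    · apply intervalIntegral.integral_congr
      intro t _
      exact hP t
    · intro h _
      apply Continuous.intervalIntegrable
      exact continuous_const.mul (continuous_ee.comp (by fun_prop))
  have h3 : ∀ h ∈ Icc (-(H : ℤ)) (H : ℤ), ∫ t in (0 : ℝ)..1, (c h : ℂ) * ee (h * t) =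
      if h = 0 then 1 else 0 := by
    intro h _
    split_ifs with hh
    · subst hh
      simp [ee_zero, h0]
    · rw [intervalIntegral.integral_const_mul]
      have h4 : ∀ t : ℝ, ee (h * t) = Complex.exp ((2 * Real.pi * Complex.I * h) * t) := by
        intro t
        unfold ee
        congr 1
        push_cast
        ring
      have h5 : (2 * Real.pi * Complex.I * h : ℂ) ≠ 0 := by
        have : (h : ℂ) ≠ 0 := by exact_mod_cast hh
        exact mul_ne_zero (by simp [Real.pi_ne_zero]) this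
      simp_rw [h4]
      rw [integral_exp_mul_complex h5]
      have h6 : Complex.exp (2 * Real.pi * Complex.I * h * ((1 : ℝ) : ℂ)) = 1 := by
        rw [Complex.exp_eq_one_iff]
        exact ⟨h, by push_cast; ring⟩
      rw [h6]
      simp
  rw [h2, sum_congr rfl h3, sum_ite_eq' (Icc (-(H : ℤ)) (H : ℤ)) 0 (fun _ => (1 : ℂ))] at h1
  rw [if_pos (by simp)] at h1
  exact_mod_cast h1

section Block

variable (H L0 : ℕ) (c : ℤ → ℝ) (P : ℝ → ℝ) (lam : ℤ → ℝ)

open Classical in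
/-- the coefficients -/
noncomputable def al (s : ℝ) (n : ℤ) : ℂ :=
  ∑ p ∈ ((Icc (1 : ℤ) (L0 : ℤ)) ×ˢ ((Icc (-(H : ℤ)) (H : ℤ)).filter (fun h => h ≠ 0))).filter
    (fun p => -(p.2 * p.1) = n), (lam p.1 : ℂ) * (c p.2 : ℂ) * ee (p.2 * s)

open Classical in
theorem al_norm (hlam : ∀ l, |lam l| ≤ 1) (hc : ∀ h, |c h| ≤ 1) (B : ℝ) (hB0 : 0 ≤ B)
    (hB : ∀ n : ℤ, n ≠ 0 → |n| ≤ ((H * L0 : ℕ) : ℤ) →
      (((Icc (1 : ℤ) (L0 : ℤ)).filter (fun l => l ∣ n)).card : ℝ) ≤ B)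
    (s : ℝ) (n : ℤ) (hn : n ∈ Icc (-((H * L0 : ℕ) : ℤ)) ((H * L0 : ℕ) : ℤ)) :
    ‖al H L0 c lam s n‖ ≤ B := by
  unfold al
  refine (norm_sum_le _ _).trans ?_
  have h1 : ∀ p ∈ ((Icc (1 : ℤ) (L0 : ℤ)) ×ˢ ((Icc (-(H : ℤ)) (H : ℤ)).filter (fun h => h ≠ 0))).filter
      (fun p => -(p.2 * p.1) = n), ‖(lam p.1 : ℂ) * (c p.2 : ℂ) * ee (p.2 * s)‖ ≤ 1 := by
    intro p _
    rw [norm_mul, norm_mul, norm_ee, mul_one, Complex.norm_real, Complex.norm_real, Real.norm_eq_abs,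
      Real.norm_eq_abs]
    calc |lam p.1| * |c p.2| ≤ 1 * 1 := mul_le_mul (hlam _) (hc _) (abs_nonneg _) zero_le_one
      _ = 1 := one_mul 1
  refine (sum_le_sum h1).trans ?_
  rw [sum_const, nsmul_eq_mul, mul_one]
  by_cases hn0 : n = 0
  · subst hn0
    have : ((Icc (1 : ℤ) (L0 : ℤ)) ×ˢ ((Icc (-(H : ℤ)) (H : ℤ)).filter (fun h => h ≠ 0))).filter
      (fun p => -(p.2 * p.1) = 0) = ∅ := by
      rw [filter_eq_empty_iff]
      intro p hp
      rw [mem_product, mem_filter, mem_Icc] at hp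
      intro h
      have h2 : p.2 * p.1 = 0 := by linarith
      rcases mul_eq_zero.mp h2 with h3 | h3
      · exact hp.2.2 h3
      · omega
    rw [this]
    simpa using hB0
  · refine le_trans ?_ (hB n hn0 ?_)
    · have : (((Icc (1 : ℤ) (L0 : ℤ)) ×ˢ ((Icc (-(H : ℤ)) (H : ℤ)).filter (fun h => h ≠ 0))).filter
        (fun p => -(p.2 * p.1) = n)).card ≤ ((Icc (1 : ℤ) (L0 : ℤ)).filter (fun l => l ∣ n)).card := by
        apply card_le_card_of_injOn (fun p => p.1)
        · intro p hp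
          simp only [coe_filter, Set.mem_ofPred_eq, mem_product] at hp ⊢
          refine ⟨hp.1.1, ⟨-p.2, ?_⟩⟩
          rw [← hp.2]
          ring
        · intro p hp q hq hpq
          simp only [coe_filter, Set.mem_ofPred_eq, mem_product, mem_Icc] at hp hq hpq
          apply Prod.ext hpq
          have h3 : p.2 * p.1 = q.2 * p.1 := by
            have := hq.2
            rw [← hpq] at this
            linarith [hp.2]
          exact mul_right_cancel₀ (by omega : p.1 ≠ 0) h3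
      exact_mod_cast this
    · rw [mem_Icc] at hn
      exact abs_le.mpr hn

/-- the exponential sum with the kernel -/
noncomputable def Wf (a : ZI) (s : ℝ) : ℝ :=
  ∑ l ∈ Icc (1 : ℤ) (L0 : ℤ), lam l * (P (s - nu a * l / nz a) - 1)

open Classical in
theorem Wf_eq (h0 : c 0 = 1)
    (hP : ∀ t, (P t : ℂ) = ∑ h ∈ Icc (-(H : ℤ)) (H : ℤ), (c h : ℂ) * ee (h * t)) (a : ZI) (s : ℝ) :
    (Wf L0 P lam a s : ℂ) = ∑ n ∈ Icc (-((H * L0 : ℕ) : ℤ)) ((H * L0 : ℕ) : ℤ),
      al H L0 c lam s n * ee (n * nu a / nz a) := by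
  have h1 : ∀ t, ((P t : ℂ) - 1) = ∑ h ∈ (Icc (-(H : ℤ)) (H : ℤ)).filter (fun h => h ≠ 0),
      (c h : ℂ) * ee (h * t) := by
    intro t
    rw [hP, ← sum_filter_add_sum_filter_not (Icc (-(H : ℤ)) (H : ℤ)) (fun h => h ≠ 0)]
    have h2 : (Icc (-(H : ℤ)) (H : ℤ)).filter (fun h => ¬ (h ≠ 0)) = {0} := by
      ext h
      simp only [mem_filter, mem_Icc, not_not, mem_singleton]
      constructor
      · exact fun h => h.2
      · intro h
        subst h
        simp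
    rw [h2, sum_singleton]
    simp [ee_zero, h0]
  set PR := (Icc (1 : ℤ) (L0 : ℤ)) ×ˢ ((Icc (-(H : ℤ)) (H : ℤ)).filter (fun h => h ≠ 0)) with hPR
  have hmaps : ∀ p ∈ PR, -(p.2 * p.1) ∈ Icc (-((H * L0 : ℕ) : ℤ)) ((H * L0 : ℕ) : ℤ) := by
    intro p hp
    rw [hPR, mem_product, mem_filter, mem_Icc, mem_Icc] at hp
    rw [mem_Icc]
    obtain ⟨⟨h2, h3⟩, ⟨h4, h5⟩, -⟩ := hp
    push_cast
    constructor <;> nlinarith
  have hfib := sum_fiberwise_of_maps_to (s := PR) (t := Icc (-((H * L0 : ℕ) : ℤ)) ((H * L0 : ℕ) : ℤ))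
    (g := fun p => -(p.2 * p.1)) hmaps
    (fun p => (lam p.1 : ℂ) * (c p.2 : ℂ) * ee (p.2 * s) * ee (((-(p.2 * p.1) : ℤ) : ℝ) * nu a / nz a))
  calc (Wf L0 P lam a s : ℂ) = ∑ l ∈ Icc (1 : ℤ) (L0 : ℤ), (lam l : ℂ) *
        ∑ h ∈ (Icc (-(H : ℤ)) (H : ℤ)).filter (fun h => h ≠ 0), (c h : ℂ) * ee (h * (s - nu a * l / nz a)) := by
        unfold Wf
        push_cast
        apply sum_congr rfl
        intro l _
        rw [h1]
    _ = ∑ p ∈ PR, (lam p.1 : ℂ) * (c p.2 : ℂ) * ee (p.2 * s) * ee (((-(p.2 * p.1) : ℤ) : ℝ) * nu a / nz a) := by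
        rw [hPR, sum_product]
        apply sum_congr rfl
        intro l _
        rw [mul_sum]
        apply sum_congr rfl
        intro h _
        have h2 : (h : ℝ) * (s - nu a * l / nz a) = h * s + ((-(h * l) : ℤ) : ℝ) * nu a / nz a := by
          push_cast
          ring
        rw [h2, ee_add]
        ring
    _ = _ := by
        rw [← hfib]
        apply sum_congr rfl
        intro n _
        unfold al
        rw [sum_mul]
        apply sum_congr rfl
        intro p hp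
        rw [(mem_filter.mp hp).2]

theorem continuous_Wf (hPc : Continuous P) (a : ZI) : Continuous (Wf L0 P lam a) := by
  unfold Wf
  apply continuous_finsetSum
  intro l _
  fun_prop

open Classical in
/-- the bound for the sum of the exponential sums -/
theorem Wf_sum (CR : ℝ) (hCR : 0 < CR) (hR : RL CR) (hL0 : 1 ≤ L0) (hH : 1 ≤ H) (h0 : c 0 = 1)
    (hP : ∀ t, (P t : ℂ) = ∑ h ∈ Icc (-(H : ℤ)) (H : ℤ), (c h : ℂ) * ee (h * t))
    (hlam : ∀ l, |lam l| ≤ 1) (hc : ∀ h, |c h| ≤ 1) (B : ℝ) (hB0 : 0 ≤ B)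
    (hB : ∀ n : ℤ, n ≠ 0 → |n| ≤ ((H * L0 : ℕ) : ℤ) →
      (((Icc (1 : ℤ) (L0 : ℤ)).filter (fun l => l ∣ n)).card : ℝ) ≤ B) (D : ℝ) (hD : 1 ≤ D) (s : ℝ) :
    ∑ a ∈ Ab D, |Wf L0 P lam a s| ≤ Real.sqrt (((Ab D).card : ℝ) *
      (CR * (2 * D + (H * L0 : ℕ)) * Real.log (2 * D + 2) * ((2 * ((H * L0 : ℕ) : ℝ) + 1) * B ^ 2))) := by
  apply Real.le_sqrt_of_sq_le
  have h1 := sq_sum_le_card_mul_sum_sq (s := Ab D) (f := fun a => |Wf L0 P lam a s|)
  refine h1.trans ?_
  apply mul_le_mul_of_nonneg_left _ (Nat.cast_nonneg _)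
  have hHL : 1 ≤ H * L0 := Nat.mul_pos hH hL0
  have h2 := hR (2 * D) (H * L0) (al H L0 c lam s) (by linarith) hHL
  have h3 : ∑ a ∈ Ab D, |Wf L0 P lam a s| ^ 2 ≤
      ∑ a ∈ (bl (2 * D)).filter (fun a => ct a = 1), ‖∑ n ∈ Icc (-((H * L0 : ℕ) : ℤ)) ((H * L0 : ℕ) : ℤ),
        al H L0 c lam s n * ee (n * nu a / nz a)‖ ^ 2 := by
    have h4 : ∀ a ∈ Ab D, |Wf L0 P lam a s| ^ 2 = ‖∑ n ∈ Icc (-((H * L0 : ℕ) : ℤ)) ((H * L0 : ℕ) : ℤ),
        al H L0 c lam s n * ee (n * nu a / nz a)‖ ^ 2 := by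
      intro a _
      rw [← Wf_eq H L0 c P lam h0 hP a s, Complex.norm_real, Real.norm_eq_abs]
    rw [sum_congr rfl h4]
    apply sum_le_sum_of_subset_of_nonneg
    · intro a ha
      unfold Ab at ha
      rw [mem_filter] at ha ⊢
      exact ⟨ha.1, ha.2.1⟩
    · intro a _ _
      positivity
  refine h3.trans (h2.trans ?_)
  have hlog : 0 ≤ Real.log (2 * D + 2) := Real.log_nonneg (by linarith)
  apply mul_le_mul_of_nonneg_left _ (by positivity)
  calc ∑ n ∈ Icc (-((H * L0 : ℕ) : ℤ)) ((H * L0 : ℕ) : ℤ), ‖al H L0 c lam s n‖ ^ 2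
      ≤ ∑ n ∈ Icc (-((H * L0 : ℕ) : ℤ)) ((H * L0 : ℕ) : ℤ), B ^ 2 := by
        apply sum_le_sum
        intro n hn
        exact pow_le_pow_left₀ (norm_nonneg _) (al_norm H L0 c lam hlam hc B hB0 hB s n hn) 2
    _ = (2 * ((H * L0 : ℕ) : ℝ) + 1) * B ^ 2 := by
        rw [sum_const, nsmul_eq_mul, Int.card_Icc]
        congr 1
        have : (((((H * L0 : ℕ) : ℤ) + 1 - -((H * L0 : ℕ) : ℤ)).toNat : ℕ) : ℤ) = 2 * ((H * L0 : ℕ) : ℤ) + 1 := by
          have h5 : (0 : ℤ) ≤ ((H * L0 : ℕ) : ℤ) := Int.natCast_nonneg _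
          rw [Int.toNat_of_nonneg (by linarith)]
          ring
        exact_mod_cast this

/-- the oscillating part of a block -/
theorem osc (K : ℝ) (hPc : Continuous P) (D T : ℝ) (hD : 1 ≤ D) (hT : 0 ≤ T)
    (hK : ∀ s, ∑ a ∈ Ab D, |Wf L0 P lam a s| ≤ K) :
    ∑ a ∈ Ab D, |∑ l ∈ Icc (1 : ℤ) (L0 : ℤ), lam l * ((∫ t in ((-T - nu a * l) / nz a)..((T - nu a * l) / nz a), P t) -
      2 * T / nz a)| ≤ 2 * T / D * K := by
  have hA : ∀ a ∈ Ab D, D ≤ nz a := by
    intro a ha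
    unfold Ab at ha
    exact (mem_filter.mp ha).2.2
  have hint : ∀ a ∈ Ab D, ∑ l ∈ Icc (1 : ℤ) (L0 : ℤ), lam l *
      ((∫ t in ((-T - nu a * l) / nz a)..((T - nu a * l) / nz a), P t) - 2 * T / nz a) =
      ∫ s in (-(T / nz a))..(T / nz a), Wf L0 P lam a s := by
    intro a ha
    have hnz : 0 < nz a := lt_of_lt_of_le (by linarith) (hA a ha)
    unfold Wf
    rw [intervalIntegral.integral_finsetSum]
    · apply sum_congr rfl
      intro l _
      rw [intervalIntegral.integral_const_mul]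
      congr 1
      rw [intervalIntegral.integral_sub]
      · rw [intervalIntegral.integral_comp_sub_right (fun x => P x) (nu a * l / nz a)]
        simp only [intervalIntegral.integral_const, smul_eq_mul, mul_one]
        have e1 : -(T / nz a) - nu a * l / nz a = (-T - nu a * l) / nz a := by ring
        have e2 : T / nz a - nu a * l / nz a = (T - nu a * l) / nz a := by ring
        rw [e1, e2]
        ring
      · apply Continuous.intervalIntegrable
        fun_prop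
      · exact intervalIntegrable_const
    · intro l _
      apply Continuous.intervalIntegrable
      fun_prop
  have hS0 : 0 ≤ T / D := by positivity
  have hb : ∀ a ∈ Ab D, |∑ l ∈ Icc (1 : ℤ) (L0 : ℤ), lam l *
      ((∫ t in ((-T - nu a * l) / nz a)..((T - nu a * l) / nz a), P t) - 2 * T / nz a)| ≤
      ∫ s in (-(T / D))..(T / D), |Wf L0 P lam a s| := by
    intro a ha
    have hnz : 0 < nz a := lt_of_lt_of_le (by linarith) (hA a ha)
    have hS1 : T / nz a ≤ T / D := div_le_div_of_nonneg_left hT (by linarith) (hA a ha)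
    have hS2 : 0 ≤ T / nz a := by positivity
    rw [hint a ha]
    have hcW := continuous_Wf L0 P lam hPc a
    calc |∫ s in (-(T / nz a))..(T / nz a), Wf L0 P lam a s| ≤ ∫ s in (-(T / nz a))..(T / nz a), |Wf L0 P lam a s| :=
          intervalIntegral.abs_integral_le_integral_abs (by linarith)
      _ ≤ _ := by
        apply intervalIntegral.integral_mono_interval (by linarith) (by linarith) hS1
        · exact Filter.Eventually.of_forall (fun x => abs_nonneg _)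
        · exact (hcW.abs).intervalIntegrable _ _
  refine (sum_le_sum hb).trans ?_
  rw [← intervalIntegral.integral_finsetSum]
  · calc ∫ s in (-(T / D))..(T / D), ∑ a ∈ Ab D, |Wf L0 P lam a s| ≤ ∫ s in (-(T / D))..(T / D), K := by
          apply intervalIntegral.integral_mono_on (by linarith)
          · apply Continuous.intervalIntegrable
            apply continuous_finsetSum
            intro a _
            exact (continuous_Wf L0 P lam hPc a).abs
          · exact intervalIntegrable_const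
          · intro s _
            exact hK s
      _ = 2 * T / D * K := by
          rw [intervalIntegral.integral_const, smul_eq_mul]
          ring
  · intro a _
    exact (continuous_Wf L0 P lam hPc a).abs.intervalIntegrable _ _

/-- the `m` near `± T` -/
noncomputable def Em' (T Δ : ℝ) : Finset ℤ := Icc ⌈T - Δ⌉ ⌊T + Δ⌋ ∪ Icc ⌈-T - Δ⌉ ⌊-T + Δ⌋

open Classical in
/-- the points near the boundary -/
theorem near (hroot : ∀ a : ZI, ct a = 1 → ∀ l m : ℤ, a ∣ (⟨l, m⟩ : ZI) ↔ Zsqrtd.norm a ∣ m - nu a * l)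
    (hPc : Continuous P) (hP0 : ∀ t, 0 ≤ P t) (hper : Function.Periodic P 1)
    (hint : ∫ t in (0 : ℝ)..1, P t = 1) (w τ : ℝ) (hw : 0 < w) (hτ : 0 ≤ τ)
    (hdec : ∀ t : ℝ, (∀ n : ℤ, w ≤ |t - n|) → P t ≤ τ) (D T : ℝ) (hD : 1 ≤ D) (hT : 0 ≤ T) :
    ∑ a ∈ Ab D, ∑ l ∈ Icc (1 : ℤ) (L0 : ℤ),
      |nm T a l - ∫ t in ((-T - nu a * l) / nz a)..((T - nu a * l) / nz a), P t| ≤
      ((Ab D).card : ℝ) * (L0 * τ) +
        3 * ∑ l ∈ Icc (1 : ℤ) (L0 : ℤ), ∑ m ∈ Em' T (2 * D * w), (dv (⟨l, m⟩ : ZI) : ℝ) := by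
  have hA : ∀ a ∈ Ab D, a ≠ 0 ∧ ct a = 1 ∧ D ≤ nz a ∧ nz a ≤ 2 * D := by
    intro a ha
    unfold Ab at ha
    rw [mem_filter, mem_bl] at ha
    exact ⟨ha.1.1, ha.2.1, ha.2.2, ha.1.2⟩
  have hpt : ∀ a ∈ Ab D, ∀ l : ℤ, |nm T a l - ∫ t in ((-T - nu a * l) / nz a)..((T - nu a * l) / nz a), P t| ≤
      τ + 3 * ∑ m ∈ Em' T (2 * D * w), (if a ∣ (⟨l, m⟩ : ZI) then (1 : ℝ) else 0) := by
    intro a ha l
    obtain ⟨ha0, ha1, ha2, ha3⟩ := hA a ha
    have hnz : 0 < nz a := by linarith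
    have hE0 : 0 ≤ ∑ m ∈ Em' T (2 * D * w), (if a ∣ (⟨l, m⟩ : ZI) then (1 : ℝ) else 0) := by
      apply sum_nonneg
      intro m _
      split_ifs <;> norm_num
    rw [nm_eq ha0 (hroot a ha1) hT l]
    obtain ⟨c1, c2⟩ := count_int P hPc hP0 hper hint w τ hw hτ hdec ((-T - nu a * l) / nz a) ((T - nu a * l) / nz a)
    have hone : ∀ m : ℤ, m ∈ Em' T (2 * D * w) → a ∣ (⟨l, m⟩ : ZI) →
        1 ≤ ∑ m ∈ Em' T (2 * D * w), (if a ∣ (⟨l, m⟩ : ZI) then (1 : ℝ) else 0) := by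
      intro m hm hdvd
      have h1 := single_le_sum (s := Em' T (2 * D * w)) (f := fun m => if a ∣ (⟨l, m⟩ : ZI) then (1 : ℝ) else 0)
        (fun m _ => by show (0 : ℝ) ≤ if a ∣ (⟨l, m⟩ : ZI) then (1 : ℝ) else 0; split_ifs <;> norm_num) hm
      simp only [if_pos hdvd] at h1
      exact h1
    by_cases f1 : ∀ n : ℤ, w ≤ |(-T - nu a * l) / nz a - n|
    · by_cases f2 : ∀ n : ℤ, w ≤ |(T - nu a * l) / nz a - n|
      · have := c2 f1 f2
        linarith
      · push Not at f2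
        obtain ⟨n, hn⟩ := f2
        have h1 : |T - nu a * l - nz a * n| < 2 * D * w := by
          have h2 : T - nu a * l - nz a * n = nz a * ((T - nu a * l) / nz a - n) := by
            field_simp
          rw [h2, abs_mul, abs_of_pos hnz]
          calc nz a * |(T - nu a * l) / nz a - n| < nz a * w := mul_lt_mul_of_pos_left hn hnz
            _ ≤ 2 * D * w := mul_le_mul_of_nonneg_right ha3 hw.le
        have h3 := hone (nu a * l + Zsqrtd.norm a * n) ?_ ?_
        · linarith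
        · unfold Em'
          rw [mem_union]
          left
          rw [mem_Icc, Int.ceil_le, Int.le_floor]
          rw [abs_lt] at h1
          have h4 : nz a = ((Zsqrtd.norm a : ℤ) : ℝ) := rfl
          rw [h4] at h1
          push_cast
          constructor <;> linarith [h1.1, h1.2]
        · rw [hroot a ha1]
          exact ⟨n, by ring⟩
    · push Not at f1
      obtain ⟨n, hn⟩ := f1
      have h1 : |-T - nu a * l - nz a * n| < 2 * D * w := by
        have h2 : -T - nu a * l - nz a * n = nz a * ((-T - nu a * l) / nz a - n) := by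
          field_simp
        rw [h2, abs_mul, abs_of_pos hnz]
        calc nz a * |(-T - nu a * l) / nz a - n| < nz a * w := mul_lt_mul_of_pos_left hn hnz
          _ ≤ 2 * D * w := mul_le_mul_of_nonneg_right ha3 hw.le
      have h3 := hone (nu a * l + Zsqrtd.norm a * n) ?_ ?_
      · linarith
      · unfold Em'
        rw [mem_union]
        right
        rw [mem_Icc, Int.ceil_le, Int.le_floor]
        rw [abs_lt] at h1
        have h4 : nz a = ((Zsqrtd.norm a : ℤ) : ℝ) := rfl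
        rw [h4] at h1
        push_cast
        constructor <;> linarith [h1.1, h1.2]
      · rw [hroot a ha1]
        exact ⟨n, by ring⟩
  have hdv : ∀ l ∈ Icc (1 : ℤ) (L0 : ℤ), ∀ m : ℤ,
      ∑ a ∈ Ab D, (if a ∣ (⟨l, m⟩ : ZI) then (1 : ℝ) else 0) ≤ dv (⟨l, m⟩ : ZI) := by
    intro l hl m
    rw [mem_Icc] at hl
    rw [← sum_filter, sum_const, nsmul_eq_mul, mul_one]
    unfold dv
    have hz : (⟨l, m⟩ : ZI) ≠ 0 := by
      intro h
      have := congrArg Zsqrtd.re h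
      simp at this
      omega
    have : ((Ab D).filter (fun a => a ∣ (⟨l, m⟩ : ZI))).card ≤
        ((bl (nz (⟨l, m⟩ : ZI))).filter (fun d => d ∣ (⟨l, m⟩ : ZI))).card := by
      apply card_le_card
      intro a ha
      rw [mem_filter] at ha ⊢
      refine ⟨?_, ha.2⟩
      rw [mem_bl]
      refine ⟨(hA a ha.1).1, ?_⟩
      obtain ⟨b, hb⟩ := ha.2
      have hb0 : b ≠ 0 := by
        rintro rfl
        rw [mul_zero] at hb
        exact hz hb
      unfold nz
      have h1 : Zsqrtd.norm a ≤ Zsqrtd.norm (⟨l, m⟩ : ZI) := by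
        rw [hb, Zsqrtd.norm_mul]
        have h2 := norm_pos_int (hA a ha.1).1
        have h3 := norm_pos_int hb0
        nlinarith
      exact_mod_cast h1
    exact_mod_cast this
  calc ∑ a ∈ Ab D, ∑ l ∈ Icc (1 : ℤ) (L0 : ℤ),
      |nm T a l - ∫ t in ((-T - nu a * l) / nz a)..((T - nu a * l) / nz a), P t|
      ≤ ∑ a ∈ Ab D, ∑ l ∈ Icc (1 : ℤ) (L0 : ℤ),
        (τ + 3 * ∑ m ∈ Em' T (2 * D * w), (if a ∣ (⟨l, m⟩ : ZI) then (1 : ℝ) else 0)) := by
        apply sum_le_sum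
        intro a ha
        apply sum_le_sum
        intro l _
        exact hpt a ha l
    _ = ((Ab D).card : ℝ) * (L0 * τ) + 3 * ∑ l ∈ Icc (1 : ℤ) (L0 : ℤ), ∑ m ∈ Em' T (2 * D * w),
        ∑ a ∈ Ab D, (if a ∣ (⟨l, m⟩ : ZI) then (1 : ℝ) else 0) := by
        simp_rw [sum_add_distrib, sum_const, nsmul_eq_mul]
        congr 1
        · congr 1
          congr 1
          rw [Int.card_Icc]
          simp
        · simp_rw [← mul_sum]
          congr 1
          rw [sum_comm]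
          apply sum_congr rfl
          intro l _
          rw [sum_comm]
    _ ≤ _ := by
        apply add_le_add le_rfl
        apply mul_le_mul_of_nonneg_left _ (by norm_num)
        apply sum_le_sum
        intro l hl
        apply sum_le_sum
        intro m _
        exact hdv l hl m

open Classical in
/-- one block -/
theorem block (CR : ℝ) (hCR : 0 < CR) (hR : RL CR)
    (hroot : ∀ a : ZI, ct a = 1 → ∀ l m : ℤ, a ∣ (⟨l, m⟩ : ZI) ↔ Zsqrtd.norm a ∣ m - nu a * l)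
    (k N : ℕ) (hk : 1 ≤ k) (hN : 1 ≤ N) (hL0 : 1 ≤ L0)
    (hlam : ∀ l, |lam l| ≤ 1) (B : ℝ) (hB0 : 0 ≤ B)
    (hB : ∀ n : ℤ, n ≠ 0 → |n| ≤ ((k * N * L0 : ℕ) : ℤ) →
      (((Icc (1 : ℤ) (L0 : ℤ)).filter (fun l => l ∣ n)).card : ℝ) ≤ B)
    (D T w : ℝ) (hD : 1 ≤ D) (hT : 0 ≤ T) (hw : 0 < w) :
    ∑ a ∈ Ab D, |∑ l ∈ Icc (1 : ℤ) (L0 : ℤ), lam l * (nm T a l - 2 * T / nz a)| ≤
      2 * T / D * Real.sqrt (((Ab D).card : ℝ) *
      (CR * (2 * D + (k * N * L0 : ℕ)) * Real.log (2 * D + 2) * ((2 * ((k * N * L0 : ℕ) : ℝ) + 1) * B ^ 2))) +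
      (((Ab D).card : ℝ) * (L0 * (k * N * (1 / (2 * w * N)) ^ (2 * k))) +
        3 * ∑ l ∈ Icc (1 : ℤ) (L0 : ℤ), ∑ m ∈ Em' T (2 * D * w), (dv (⟨l, m⟩ : ZI) : ℝ)) := by
  obtain ⟨c, P, hPc, hP0, hP, hc0, hc1, hdec⟩ := kernel k hk N hN
  have hper : Function.Periodic P 1 := by
    intro t
    have : (P (t + 1) : ℂ) = (P t : ℂ) := by
      rw [hP, hP]
      apply sum_congr rfl
      intro h _
      rw [ee_periodic_int]
    exact_mod_cast this
  have hint := int_trig (k * N) c P hc0 hP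
  have hH : 1 ≤ k * N := Nat.mul_pos hk hN
  have hW := Wf_sum (k * N) L0 c P lam CR hCR hR hL0 hH hc0 hP hlam hc1 B hB0 hB D hD
  have h1 := osc L0 P lam _ hPc D T hD hT hW
  have hτ : 0 ≤ k * N * (1 / (2 * w * N)) ^ (2 * k) := by positivity
  have h2 := near L0 P hroot hPc hP0 hper hint w _ hw hτ (fun t ht => hdec w t hw ht) D T hD hT
  refine le_trans ?_ (add_le_add h1 h2)
  rw [← sum_add_distrib]
  apply sum_le_sum
  intro a _
  have h3 : ∑ l ∈ Icc (1 : ℤ) (L0 : ℤ), lam l * (nm T a l - 2 * T / nz a) =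
      ∑ l ∈ Icc (1 : ℤ) (L0 : ℤ), lam l * ((∫ t in ((-T - nu a * l) / nz a)..((T - nu a * l) / nz a), P t) -
        2 * T / nz a) + ∑ l ∈ Icc (1 : ℤ) (L0 : ℤ), lam l *
        (nm T a l - ∫ t in ((-T - nu a * l) / nz a)..((T - nu a * l) / nz a), P t) := by
    rw [← sum_add_distrib]
    apply sum_congr rfl
    intro l _
    ring
  rw [h3]
  refine (abs_add_le _ _).trans (add_le_add le_rfl ?_)
  refine (abs_sum_le_sum_abs _ _).trans ?_
  apply sum_le_sum
  intro l _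
  rw [abs_mul]
  calc |lam l| * |nm T a l - ∫ t in ((-T - nu a * l) / nz a)..((T - nu a * l) / nz a), P t| ≤
      1 * |nm T a l - ∫ t in ((-T - nu a * l) / nz a)..((T - nu a * l) / nz a), P t| :=
        mul_le_mul_of_nonneg_right (hlam l) (abs_nonneg _)
    _ = _ := one_mul _

end Block

end Pool.Agent.N458.GN
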