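import Pool.Agent.N458.GN.TIC

/-!
# Project GN (helper782), task TI: the bound for one block
-/

set_option autoImplicit false

namespace Pool.Agent.N458.GN

open Finset
open Pool.Agent.N782.GN

theorem card_bl (X : ℝ) (hX : 1 ≤ X) : ((bl X).card : ℝ) ≤ 9 * X := by
  classical
  have h1 : (bl X).card ≤ (2 * ⌊Real.sqrt X⌋₊ + 1) * (2 * ⌊Real.sqrt X⌋₊ + 1) := by
    unfold bl
    refine (card_filter_le _ _).trans (card_image_le.trans ?_)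
    rw [card_product, Int.card_Icc]
    have h2 : ((⌊Real.sqrt X⌋₊ : ℤ) + 1 - -(⌊Real.sqrt X⌋₊ : ℤ)).toNat = 2 * ⌊Real.sqrt X⌋₊ + 1 := by omega
    rw [h2]
  have h3 : (⌊Real.sqrt X⌋₊ : ℝ) ≤ Real.sqrt X := Nat.floor_le (Real.sqrt_nonneg X)
  have h4 : 1 ≤ Real.sqrt X := Real.one_le_sqrt.mpr hX
  have h5 : Real.sqrt X ^ 2 = X := Real.sq_sqrt (by linarith)
  have h6 : ((bl X).card : ℝ) ≤ (2 * (⌊Real.sqrt X⌋₊ : ℝ) + 1) * (2 * (⌊Real.sqrt X⌋₊ : ℝ) + 1) := by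
    exact_mod_cast h1
  have h7 : (0 : ℝ) ≤ (⌊Real.sqrt X⌋₊ : ℝ) := Nat.cast_nonneg _
  nlinarith

theorem card_Ab (D : ℝ) (hD : 1 ≤ D) : ((Ab D).card : ℝ) ≤ 18 * D := by
  classical
  have h1 : (Ab D).card ≤ (bl (2 * D)).card := by
    unfold Ab
    exact card_filter_le _ _
  have h2 := card_bl (2 * D) (by linarith)
  have h3 : ((Ab D).card : ℝ) ≤ ((bl (2 * D)).card : ℝ) := by exact_mod_cast h1
  linarith

theorem card_Em' (T Δ : ℝ) (hΔ : 0 ≤ Δ) : ((Em' T Δ).card : ℝ) ≤ 4 * Δ + 2 := by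
  have h0 : ∀ x : ℝ, ((Icc ⌈x - Δ⌉ ⌊x + Δ⌋).card : ℝ) ≤ 2 * Δ + 1 := by
    intro x
    rw [Int.card_Icc]
    have h1 : ⌈x - Δ⌉ ≤ ⌊x + Δ⌋ + 1 := by
      have h2 : ⌈x - Δ⌉ ≤ ⌊x - Δ⌋ + 1 := Int.ceil_le_floor_add_one _
      have h3 : ⌊x - Δ⌋ ≤ ⌊x + Δ⌋ := Int.floor_le_floor (by linarith)
      linarith
    have h4 : (((⌊x + Δ⌋ + 1 - ⌈x - Δ⌉).toNat : ℕ) : ℤ) = ⌊x + Δ⌋ + 1 - ⌈x - Δ⌉ :=
      Int.toNat_of_nonneg (by linarith)
    have h5 : (((⌊x + Δ⌋ + 1 - ⌈x - Δ⌉).toNat : ℕ) : ℝ) = (⌊x + Δ⌋ : ℝ) + 1 - ⌈x - Δ⌉ := by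
      exact_mod_cast h4
    rw [h5]
    have h6 := Int.floor_le (x + Δ)
    have h7 := Int.le_ceil (x - Δ)
    linarith
  have h1 : ((Em' T Δ).card : ℝ) ≤ ((Icc ⌈T - Δ⌉ ⌊T + Δ⌋).card : ℝ) + ((Icc ⌈-T - Δ⌉ ⌊-T + Δ⌋).card : ℝ) := by
    unfold Em'
    exact_mod_cast card_union_le _ _
  have h2 := h0 T
  have h3 := h0 (-T)
  linarith

open Classical in
/-- the divisors of an integer -/
theorem card_div (δ Cδ : ℝ) (hδ : 0 < δ) (hdv : ∀ z : ZI, z ≠ 0 → (dv z : ℝ) ≤ Cδ * (nz z) ^ δ) (hC : 0 < Cδ)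
    (L0 : ℕ) (n : ℤ) (hn : n ≠ 0) (X : ℝ) (hX : |(n : ℝ)| ≤ X) :
    (((Icc (1 : ℤ) (L0 : ℤ)).filter (fun l => l ∣ n)).card : ℝ) ≤ Cδ * (X ^ 2) ^ δ := by
  have hz : (⟨n, 0⟩ : ZI) ≠ 0 := by
    intro h
    have := congrArg Zsqrtd.re h
    simp at this
    exact hn this
  have h1 : ((Icc (1 : ℤ) (L0 : ℤ)).filter (fun l => l ∣ n)).card ≤ dv (⟨n, 0⟩ : ZI) := by
    unfold dv
    apply card_le_card_of_injOn (fun l => (⟨l, 0⟩ : ZI))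
    · intro l hl
      simp only [coe_filter, Set.mem_ofPred_eq, mem_Icc] at hl ⊢
      obtain ⟨⟨hl1, hl2⟩, m, hm⟩ := hl
      refine ⟨?_, ⟨⟨m, 0⟩, ?_⟩⟩
      · rw [mem_bl]
        refine ⟨?_, ?_⟩
        · intro h
          have := congrArg Zsqrtd.re h
          simp at this
          omega
        · rw [nz_eq, nz_eq]
          simp only
          have h2 : |(l : ℝ)| ≤ |(n : ℝ)| := by
            have : |l| ≤ |n| := by
              rw [hm, abs_mul]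
              have hm0 : m ≠ 0 := by
                rintro rfl
                rw [mul_zero] at hm
                exact hn hm
              have : 1 ≤ |m| := Int.one_le_abs hm0
              nlinarith [abs_nonneg l]
            exact_mod_cast this
          have h3 : (l : ℝ) ^ 2 ≤ (n : ℝ) ^ 2 := sq_le_sq.mpr h2
          linarith
      · apply Zsqrtd.ext <;> simp [hm]
    · intro l _ l' _ h
      have := congrArg Zsqrtd.re h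
      simpa using this
  have h2 : ((dv (⟨n, 0⟩ : ZI) : ℕ) : ℝ) ≤ Cδ * (X ^ 2) ^ δ := by
    refine (hdv _ hz).trans ?_
    apply mul_le_mul_of_nonneg_left _ hC.le
    apply Real.rpow_le_rpow (nz_nonneg _) _ hδ.le
    rw [nz_eq]
    simp only [Int.cast_zero]
    have h4 : (n : ℝ) ^ 2 ≤ X ^ 2 := by
      rw [← sq_abs (n : ℝ)]
      exact pow_le_pow_left₀ (abs_nonneg _) hX 2
    linarith
  have h3 : (((Icc (1 : ℤ) (L0 : ℤ)).filter (fun l => l ∣ n)).card : ℝ) ≤ ((dv (⟨n, 0⟩ : ZI) : ℕ) : ℝ) := by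
    exact_mod_cast h1
  linarith

/-- the trivial bound for a block -/
theorem block_triv (hroot : ∀ a : ZI, ct a = 1 → ∀ l m : ℤ, a ∣ (⟨l, m⟩ : ZI) ↔ Zsqrtd.norm a ∣ m - nu a * l)
    (L0 : ℕ) (lam : ℤ → ℝ) (hlam : ∀ l, |lam l| ≤ 1) (D T : ℝ) (hD : 1 ≤ D) (hT : 0 ≤ T) :
    ∑ a ∈ Ab D, |∑ l ∈ Icc (1 : ℤ) (L0 : ℤ), lam l * (nm T a l - 2 * T / nz a)| ≤ 18 * D * L0 := by
  classical
  have h1 : ∀ a ∈ Ab D, |∑ l ∈ Icc (1 : ℤ) (L0 : ℤ), lam l * (nm T a l - 2 * T / nz a)| ≤ L0 := by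
    intro a ha
    unfold Ab at ha
    rw [mem_filter, mem_bl] at ha
    obtain ⟨⟨ha0, _⟩, ha1, _⟩ := ha
    refine (abs_sum_le_sum_abs _ _).trans ?_
    have h2 : ∀ l ∈ Icc (1 : ℤ) (L0 : ℤ), |lam l * (nm T a l - 2 * T / nz a)| ≤ 1 := by
      intro l _
      rw [abs_mul]
      calc |lam l| * |nm T a l - 2 * T / nz a| ≤ 1 * 1 :=
            mul_le_mul (hlam l) (nm_triv ha0 (hroot a ha1) hT l) (abs_nonneg _) zero_le_one
        _ = 1 := one_mul 1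
    refine (sum_le_sum h2).trans ?_
    rw [sum_const, nsmul_eq_mul, mul_one, Int.card_Icc]
    simp
  refine (sum_le_sum h1).trans ?_
  rw [sum_const, nsmul_eq_mul]
  exact mul_le_mul_of_nonneg_right (card_Ab D hD) (Nat.cast_nonneg _)

theorem Icc_floor {x : ℝ} (hx : 0 ≤ x) : Icc (1 : ℤ) ⌊x⌋ = Icc (1 : ℤ) ((⌊x⌋₊ : ℕ) : ℤ) := by
  rw [Int.natCast_floor_eq_floor hx]

end Pool.Agent.N458.GN
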